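import Pool.Agent.H20.LIM.Targets
import Pool.Agent.H23.GLM.Func

/-!
# RGT: the limit to the right of the critical line
-/

set_option autoImplicit false

open Complex MeasureTheory Set Filter Topology Metric

namespace Pool.Agent.H42.LIM

open Pool.Agent.H20.LIM Pool.Agent.H23.GLM Pool.Agent.H23.DZ

/-- an asymptotic upper bound on a measurable set passes to the limit -/
lemma key (f : ℕ → ℂ → ℝ) (u : ℂ → ℝ) (hu : ToL1 f u) (E : Set ℂ) (hE : MeasurableSet E)
    (b : ℕ → ℝ) (b0 : ℝ) (hb : Tendsto b atTop (𝓝 b0)) (R : ℝ)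
    (h : ∀ᶠ k in atTop, ∀ z ∈ E ∩ closedBall (0 : ℂ) R, f k z ≤ b k) :
    ∀ᵐ z : ℂ, z ∈ E ∩ closedBall (0 : ℂ) R → u z ≤ b0 := by
  have hS : MeasurableSet (E ∩ closedBall (0 : ℂ) R) := hE.inter measurableSet_closedBall
  have hlim : Tendsto (fun k => (∫⁻ z in closedBall (0 : ℂ) R, ‖f k z - u z‖ₑ) +
      ENNReal.ofReal |b k - b0| * volume (closedBall (0 : ℂ) R)) atTop (𝓝 0) := by
    have h1 := hu.2 R
    have h2 : Tendsto (fun k => ENNReal.ofReal |b k - b0|) atTop (𝓝 0) := by
      rw [← ENNReal.ofReal_zero]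
      refine (ENNReal.continuous_ofReal.tendsto 0).comp ?_
      have h3 : Tendsto (fun k => b k - b0) atTop (𝓝 0) := by
        simpa using hb.sub_const b0
      simpa using h3.abs
    have h3 := ENNReal.Tendsto.mul_const (b := volume (closedBall (0 : ℂ) R)) h2
      (Or.inr measure_closedBall_lt_top.ne)
    rw [zero_mul] at h3
    simpa using h1.add h3
  have hzero : ∫⁻ z in E ∩ closedBall (0 : ℂ) R, ENNReal.ofReal (u z - b0) = 0 := by
    refine le_antisymm (ge_of_tendsto hlim ?_) (by simp)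
    filter_upwards [h] with k hk
    calc ∫⁻ z in E ∩ closedBall (0 : ℂ) R, ENNReal.ofReal (u z - b0) ≤
        ∫⁻ z in E ∩ closedBall (0 : ℂ) R, (‖f k z - u z‖ₑ + ENNReal.ofReal |b k - b0|) := by
          refine setLIntegral_mono' hS fun z hz => ?_
          have h1 := hk z hz
          have h2 : u z - b0 ≤ |f k z - u z| + |b k - b0| := by
            have h3 := neg_abs_le (f k z - u z)
            have h4 := le_abs_self (b k - b0)
            linarith
          refine (ENNReal.ofReal_le_ofReal h2).trans ?_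
          rw [ENNReal.ofReal_add (abs_nonneg _) (abs_nonneg _), ← Real.enorm_eq_ofReal_abs]
      _ = (∫⁻ z in E ∩ closedBall (0 : ℂ) R, ‖f k z - u z‖ₑ) +
          ∫⁻ _z in E ∩ closedBall (0 : ℂ) R, ENNReal.ofReal |b k - b0| :=
        lintegral_add_right _ measurable_const
      _ ≤ _ := by
        rw [setLIntegral_const]
        refine add_le_add (lintegral_mono_set inter_subset_right) ?_
        exact mul_le_mul_right (measure_mono inter_subset_right) _
  have hmeas : AEMeasurable (fun z => ENNReal.ofReal (u z - b0))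
      (volume.restrict (E ∩ closedBall (0 : ℂ) R)) :=
    ((hu.1.aemeasurable.sub_const b0).ennreal_ofReal).restrict
  rw [lintegral_eq_zero_iff' hmeas] at hzero
  have h5 := (ae_restrict_iff' hS).1 hzero
  filter_upwards [h5] with z hz hzS
  have h6 := hz hzS
  have h7 : ENNReal.ofReal (u z - b0) = 0 := h6
  rw [ENNReal.ofReal_eq_zero] at h7
  linarith

/-- the same without the disc -/
lemma key2 (f : ℕ → ℂ → ℝ) (u : ℂ → ℝ) (hu : ToL1 f u) (E : Set ℂ) (hE : MeasurableSet E)
    (b : ℕ → ℕ → ℝ) (b0 : ℝ) (hb : ∀ n, Tendsto (b n) atTop (𝓝 b0))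
    (h : ∀ n : ℕ, ∀ᶠ k in atTop, ∀ z ∈ E ∩ closedBall (0 : ℂ) n, f k z ≤ b n k) :
    ∀ᵐ z : ℂ, z ∈ E → u z ≤ b0 := by
  have h1 : ∀ᵐ z : ℂ, ∀ n : ℕ, z ∈ E ∩ closedBall (0 : ℂ) n → u z ≤ b0 :=
    ae_all_iff.2 fun n => key f u hu E hE (b n) b0 (hb n) n (h n)
  filter_upwards [h1] with z hz hzE
  obtain ⟨n, hn⟩ := exists_nat_ge ‖z‖
  exact hz n ⟨hzE, by rwa [mem_closedBall_zero_iff]⟩

lemma toL1_neg {f : ℕ → ℂ → ℝ} {u : ℂ → ℝ} (hu : ToL1 f u) :
    ToL1 (fun k z => -f k z) (fun z => -u z) := by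
  refine ⟨hu.1.neg, fun R => ?_⟩
  refine (hu.2 R).congr fun k => ?_
  refine lintegral_congr fun z => ?_
  rw [← enorm_neg]
  congr 1
  ring

theorem pf_rgt (hGRO : T_GRO) (_hLAN : T_LAN) : T_RGT := by
  intro m S hM hF q u hlim
  obtain ⟨π, t, hπ, hX, -, hu⟩ := hlim
  have hlog : Tendsto (fun k => Real.log ((π k).X (t k))) atTop atTop :=
    Real.tendsto_log_atTop.comp hX
  have hpos : ∀ᶠ k in atTop, 0 < Real.log ((π k).X (t k)) := hlog.eventually_gt_atTop 0
  have hdiv : ∀ c : ℝ, Tendsto (fun k => c / Real.log ((π k).X (t k))) atTop (𝓝 0) := fun c =>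
    hlog.const_div_atTop c
  have hre : ∀ (k : ℕ) (z : ℂ), (1 / 2 + (t k : ℂ) * I + z).re = 1 / 2 + z.re := by
    intro k z
    simp
  have hmeasE : ∀ a : ℝ, MeasurableSet {z : ℂ | a ≤ z.re} := fun a =>
    (isClosed_le continuous_const continuous_re).measurableSet
  refine ⟨?_, ?_, ?_⟩
  · -- Molteni
    have h1 : ∀ᵐ z : ℂ, ∀ n : ℕ, z ∈ {z : ℂ | 1 / 2 + 1 / ((n : ℝ) + 1) ≤ z.re} →
        u z ≤ 1 / ((n : ℝ) + 1) := by
      refine ae_all_iff.2 fun n => ?_
      have hε : (0 : ℝ) < 1 / ((n : ℝ) + 1) := Nat.one_div_pos_of_nat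
      obtain ⟨ε, hεd⟩ : ∃ ε : ℝ, ε = 1 / ((n : ℝ) + 1) := ⟨_, rfl⟩
      rw [← hεd] at hε ⊢
      obtain ⟨B, hB⟩ := hM ε hε
      refine key2 _ u hu _ (hmeasE _)
        (fun _ k => Real.log (max B 1) / Real.log ((π k).X (t k)) + ε) ε (fun _ => ?_) fun N => ?_
      · simpa using (hdiv (Real.log (max B 1))).add_const ε
      · filter_upwards [hpos] with k hk
        rintro z ⟨hz, -⟩
        have hz' : 1 / 2 + ε ≤ z.re := hz
        have h2 := hB (π k) (hπ k) (1 / 2 + t k * I + z) (by rw [hre]; linarith)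
        have hC := (π k).one_le_C
        have hCX := (π k).C_le_X (t k)
        have hX1 := (π k).one_le_X (t k)
        have hX0 : 0 < (π k).X (t k) := by linarith
        have hB1 : (1 : ℝ) ≤ max B 1 := le_max_right _ _
        have h3 : ‖(π k).L (1 / 2 + t k * I + z)‖ ≤ max B 1 * (π k).X (t k) ^ ε := by
          refine h2.trans ?_
          have h4 : (π k).C ^ ε ≤ (π k).X (t k) ^ ε :=
            Real.rpow_le_rpow (by linarith) hCX hε.le
          have h5 : 0 ≤ (π k).C ^ ε := Real.rpow_nonneg (by linarith) _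
          calc B * (π k).C ^ ε ≤ max B 1 * (π k).C ^ ε :=
                mul_le_mul_of_nonneg_right (le_max_left _ _) h5
            _ ≤ _ := mul_le_mul_of_nonneg_left h4 (by linarith)
        have hr : 0 < (π k).X (t k) ^ ε := Real.rpow_pos_of_pos hX0 _
        have h6 : Real.log ‖(π k).L (1 / 2 + t k * I + z)‖ ≤
            Real.log (max B 1) + ε * Real.log ((π k).X (t k)) := by
          rw [← Real.log_rpow hX0, ← Real.log_mul (by linarith) hr.ne']
          rcases eq_or_lt_of_le (norm_nonneg ((π k).L (1 / 2 + t k * I + z))) with h0 | h0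
          · rw [← h0, Real.log_zero]
            refine Real.log_nonneg ?_
            have := Real.one_le_rpow hX1 hε.le
            nlinarith
          · exact Real.log_le_log h0 h3
        unfold U
        have h7 := div_le_div_of_nonneg_right h6 hk.le
        refine h7.trans (le_of_eq ?_)
        rw [add_div, mul_div_assoc, div_self hk.ne', mul_one]
    filter_upwards [h1] with z hz hre'
    refine ge_of_tendsto (tendsto_one_div_add_atTop_nhds_zero_nat (𝕜 := ℝ)) ?_
    have h8 : ∀ᶠ n : ℕ in atTop, 1 / ((n : ℝ) + 1) < z.re - 1 / 2 :=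
      (tendsto_one_div_add_atTop_nhds_zero_nat (𝕜 := ℝ)).eventually_lt_const (by linarith)
    filter_upwards [h8] with n hn
    exact hz n (by
      show 1 / 2 + 1 / ((n : ℝ) + 1) ≤ z.re
      linarith)
  · -- far to the right
    obtain ⟨σ₁, c, hc, hF'⟩ := hF
    refine ⟨σ₁ - 1 / 2, ?_⟩
    have habs : ∀ k, ∀ z ∈ {z : ℂ | σ₁ - 1 / 2 ≤ z.re}, 0 < Real.log ((π k).X (t k)) →
        |U (π k) (t k) z| ≤ |Real.log c| / Real.log ((π k).X (t k)) := by
      intro k z hz hk
      have hz' : σ₁ - 1 / 2 ≤ z.re := hz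
      obtain ⟨h1, h2⟩ := hF' (π k) (hπ k) (1 / 2 + t k * I + z) (by rw [hre]; linarith)
      unfold U
      rw [abs_div, abs_of_pos hk]
      refine div_le_div_of_nonneg_right ?_ hk.le
      have h3 : 0 < ‖(π k).L (1 / 2 + t k * I + z)‖ := lt_of_lt_of_le hc h1
      have h4 := Real.log_le_log hc h1
      have h5 := Real.log_le_log h3 h2
      rw [Real.log_inv] at h5
      rw [abs_le]
      constructor
      · have := neg_abs_le (Real.log c)
        linarith
      · have := neg_abs_le (Real.log c)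
        linarith
    have h1 := key2 _ u hu _ (hmeasE (σ₁ - 1 / 2))
      (fun _ k => |Real.log c| / Real.log ((π k).X (t k))) 0 (fun _ => hdiv _) fun N => by
        filter_upwards [hpos] with k hk
        rintro z ⟨hz, -⟩
        exact (le_abs_self _).trans (habs k z hz hk)
    have h2 := key2 _ (fun z => -u z) (toL1_neg hu) _ (hmeasE (σ₁ - 1 / 2))
      (fun _ k => |Real.log c| / Real.log ((π k).X (t k))) 0 (fun _ => hdiv _) fun N => by
        filter_upwards [hpos] with k hk
        rintro z ⟨hz, -⟩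
        exact (neg_le_abs _).trans (habs k z hz hk)
    filter_upwards [h1, h2] with z hz1 hz2 hz
    have h3 := hz1 hz
    have h4 := hz2 hz
    linarith
  · -- growth
    have h1 : ∀ n : ℕ, ∃ A K : ℝ, 1 ≤ A ∧ ∀ π ∈ S, ∀ t : ℝ, K ≤ π.X t → ∀ z : ℂ,
        ‖z‖ ≤ (n : ℝ) + 1 → DifferentiableAt ℂ π.L (1 / 2 + t * I + z) ∧
        (-(1 / 4) ≤ z.re → ‖π.L (1 / 2 + t * I + z)‖ ≤ A * π.X t) := fun n =>
      hGRO m S hM ((n : ℝ) + 1) (by positivity)
    choose A K hA hK using h1
    refine key2 _ u hu _ (hmeasE (-(1 / 4)))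
      (fun n k => Real.log (A n) / Real.log ((π k).X (t k)) + 1) 1 (fun n => ?_) fun n => ?_
    · simpa using (hdiv (Real.log (A n))).add_const 1
    · filter_upwards [hpos, hX.eventually_ge_atTop (K n)] with k hk hkK
      rintro z ⟨hz, hzn⟩
      rw [mem_closedBall_zero_iff] at hzn
      have hz' : -(1 / 4) ≤ z.re := hz
      have h2 := (hK n (π k) (hπ k) (t k) hkK z (by linarith)).2 hz'
      have hX1 := (π k).one_le_X (t k)
      have hX0 : 0 < (π k).X (t k) := by linarith
      have hA1 := hA n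
      have h6 : Real.log ‖(π k).L (1 / 2 + t k * I + z)‖ ≤
          Real.log (A n) + Real.log ((π k).X (t k)) := by
        rw [← Real.log_mul (by linarith) hX0.ne']
        rcases eq_or_lt_of_le (norm_nonneg ((π k).L (1 / 2 + t k * I + z))) with h0 | h0
        · rw [← h0, Real.log_zero]
          refine Real.log_nonneg ?_
          nlinarith
        · exact Real.log_le_log h0 h2
      unfold U
      have h7 := div_le_div_of_nonneg_right h6 hk.le
      refine h7.trans (le_of_eq ?_)
      rw [add_div, div_self hk.ne']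

end Pool.Agent.H42.LIM
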